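import Mathlib

set_option autoImplicit false

namespace Pool.Agent.R630.UI

universe u

open scoped commutatorElement

/-- The kernel of the ultraproduct: the sequences which are the identity on a set of the
ultrafilter. -/
def nullSub (U : Ultrafilter ℕ) (G : ℕ → Type u) [∀ i, Group (G i)] : Subgroup (∀ i, G i) where
  carrier := {x | {i | x i = 1} ∈ U}
  one_mem' := by
    have : {i | (1 : ∀ i, G i) i = 1} = Set.univ := by ext i; simp
    show {i | (1 : ∀ i, G i) i = 1} ∈ U
    rw [this]; exact Filter.univ_mem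
  mul_mem' := by
    intro a b ha hb
    refine Filter.mem_of_superset (Filter.inter_mem ha hb) ?_
    rintro i ⟨h1, h2⟩
    have h1' : a i = 1 := h1
    have h2' : b i = 1 := h2
    show (a * b) i = 1
    rw [Pi.mul_apply, h1', h2', one_mul]
  inv_mem' := by
    intro a ha
    refine Filter.mem_of_superset ha ?_
    intro i h1
    have h1' : a i = 1 := h1
    show (a⁻¹) i = 1
    rw [Pi.inv_apply, h1', inv_one]

instance (U : Ultrafilter ℕ) (G : ℕ → Type u) [∀ i, Group (G i)] : (nullSub U G).Normal := by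
  refine ⟨?_⟩
  intro a ha g
  refine Filter.mem_of_superset ha ?_
  intro i h1
  have h1' : a i = 1 := h1
  show (g * a * g⁻¹) i = 1
  rw [Pi.mul_apply, Pi.mul_apply, Pi.inv_apply, h1', mul_one, mul_inv_cancel]

/-- `H` is a ui-group: a homomorphic image of an ultraproduct of a sequence of groups, for a
nonprincipal ultrafilter on `ℕ`. -/
def IsUi (H : Type) [Group H] : Prop :=
  ∃ (G : ℕ → Type u) (_ : ∀ i, Group (G i)) (U : Ultrafilter ℕ),
    (∀ n : ℕ, ({n} : Set ℕ) ∉ U) ∧
      ∃ φ : ((∀ i, G i) ⧸ nullSub U G) →* H, Function.Surjective φ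

/-- backward recursion in one coordinate -/
def aux {G : ℕ → Type u} [∀ i, Group (G i)] (B : ∀ i, G i) (E : ℕ → ∀ i, G i) (n : ℕ) : ℕ → G n
  | 0 => 1
  | m + 1 => B n * ⁅E (n - m) n, aux B E n m⁆

/-- In an image of a reduced product by a filter containing the cofinite sets the system
`h k = b * [e k, h (k + 1)]` is solvable. -/
theorem solve {H : Type} [Group H] {G : ℕ → Type u} [∀ i, Group (G i)]
    (ψ : (∀ i, G i) →* H) (hψ : Function.Surjective ψ)
    (h1 : ∀ x : ∀ i, G i, {i | x i ≠ 1}.Finite → ψ x = 1) (b : H) (e : ℕ → H) :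
    ∃ h : ℕ → H, ∀ k, h k = b * ⁅e k, h (k + 1)⁆ := by
  obtain ⟨B, hB⟩ := hψ b
  choose E hE using fun k => hψ (e k)
  refine ⟨fun k => ψ (fun n => aux B E n (n + 1 - k)), fun k => ?_⟩
  show ψ (fun n => aux B E n (n + 1 - k)) = b * ⁅e k, ψ (fun n => aux B E n (n + 1 - (k + 1)))⁆
  rw [← hB, ← hE k, ← map_commutatorElement, ← map_mul]
  rw [← div_eq_one, ← map_div]
  apply h1
  refine (Set.finite_lt_nat k).subset ?_
  intro n hn
  by_contra hnk
  apply hn
  have hnk' : k ≤ n := by
    by_contra hh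
    exact hnk (by show n < k; omega)
  have e1 : n + 1 - k = (n - k) + 1 := by omega
  have e2 : n + 1 - (k + 1) = n - k := by omega
  have e3 : n - (n - k) = k := by omega
  rw [Pi.div_apply, div_eq_one, Pi.mul_apply]
  show aux B E n (n + 1 - k) = B n * ⁅E k n, aux B E n (n + 1 - (k + 1))⁆
  rw [e1, e2]
  show B n * ⁅E (n - (n - k)) n, aux B E n (n - k)⁆ = _
  rw [e3]

theorem IsUi.solve {H : Type} [Group H] (hui : IsUi.{u} H) (b : H) (e : ℕ → H) :
    ∃ h : ℕ → H, ∀ k, h k = b * ⁅e k, h (k + 1)⁆ := by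
  obtain ⟨G, _, U, hU, φ, hφ⟩ := hui
  refine UI.solve (φ.comp (QuotientGroup.mk' (nullSub U G)))
    (hφ.comp (QuotientGroup.mk'_surjective _)) ?_ b e
  intro x hx
  have : x ∈ nullSub U G := by
    show {i | x i = 1} ∈ U
    have hfin : {i | x i ≠ 1} ∉ U := by
      intro hmem
      obtain ⟨n, hn⟩ := Ultrafilter.eq_pure_of_finite_mem hx hmem
      apply hU n
      rw [hn.2]
      exact Ultrafilter.mem_pure.2 rfl
    have := (Ultrafilter.compl_mem_iff_notMem).2 hfin
    refine Filter.mem_of_superset this ?_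
    intro i hi
    by_contra h
    exact hi h
  show φ (QuotientGroup.mk' (nullSub U G) x) = 1
  have h2 : QuotientGroup.mk' (nullSub U G) x = 1 := (QuotientGroup.eq_one_iff x).2 this
  rw [h2, map_one]

/-! ### The ring -/

/-- exponents -/
abbrev E := ℕ →₀ ZMod 2

/-- the group algebra over `F_2` of the direct sum of countably many copies of `C_2` -/
abbrev R := AddMonoidAlgebra (ZMod 2) E

noncomputable section

/-- the generators of the group -/
def g (i : ℕ) : R := AddMonoidAlgebra.single (Finsupp.single i 1) 1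

theorem g_mul_self (i : ℕ) : g i * g i = 1 := by
  rw [g, AddMonoidAlgebra.single_mul_single]
  have : (Finsupp.single i (1 : ZMod 2) + Finsupp.single i 1 : E) = 0 := by
    rw [← Finsupp.single_add]
    have : (1 : ZMod 2) + 1 = 0 := by decide
    rw [this, Finsupp.single_zero]
  rw [this, mul_one]
  rfl

theorem two_eq (x : R) : x + x = 0 := by
  apply AddMonoidAlgebra.ext
  ext a
  rw [AddMonoidAlgebra.coeff_add, Finsupp.add_apply]
  exact CharTwo.add_self_eq_zero _

/-- the product of the first `n` elements `1 + g i` -/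
def p (n : ℕ) : R := ∏ i ∈ Finset.range n, (1 + g i)

theorem prod_g (t : Finset ℕ) : ∏ i ∈ t, g i =
    AddMonoidAlgebra.single (∑ i ∈ t, Finsupp.single i (1 : ZMod 2)) 1 := by
  classical
  induction t using Finset.induction_on with
  | empty => simp; rfl
  | insert a s ha ih =>
    rw [Finset.prod_insert ha, Finset.sum_insert ha, ih, g, AddMonoidAlgebra.single_mul_single,
      mul_one]

theorem p_ne_zero (n : ℕ) : p n ≠ 0 := by
  classical
  intro h
  have h1 : (p n).coeff 0 = 0 := by rw [h]; simp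
  rw [p, Finset.prod_one_add] at h1
  have h2 : (∑ t ∈ (Finset.range n).powerset, ∏ i ∈ t, g i).coeff 0 =
      ∑ t ∈ (Finset.range n).powerset, (∏ i ∈ t, g i).coeff 0 := by
    rw [AddMonoidAlgebra.coeff_sum, Finsupp.finsetSum_apply]
  rw [h2] at h1
  have h3 : ∀ t ∈ (Finset.range n).powerset, (∏ i ∈ t, g i).coeff 0 = if t = ∅ then 1 else 0 := by
    intro t _
    rw [prod_g]
    split_ifs with ht
    · subst ht; simp
    · obtain ⟨a, ha⟩ := Finset.nonempty_iff_ne_empty.2 ht
      rw [AddMonoidAlgebra.coeff_single, Finsupp.single_apply, if_neg]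
      intro hh
      have := DFunLike.congr_fun hh a
      rw [Finsupp.finsetSum_apply] at this
      simp [Finsupp.single_apply, ha] at this
  rw [Finset.sum_congr rfl h3, Finset.sum_ite_eq' (Finset.range n).powerset ∅] at h1
  simp at h1

/-- killing the generators from `N` on -/
def π (N : ℕ) : R →+* R :=
  AddMonoidAlgebra.mapDomainRingHom (ZMod 2) (Finsupp.filterAddHom (M := ZMod 2) (fun i => i < N))

theorem π_g_lt {N i : ℕ} (h : i < N) : π N (g i) = g i := by
  rw [π, g]
  have h2 : Finsupp.filterAddHom (M := ZMod 2) (fun i => i < N) (Finsupp.single i 1) =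
      Finsupp.single i 1 := Finsupp.filter_single_of_pos _ h
  simp [AddMonoidAlgebra.mapDomain_single, h2]

theorem π_g_ge {N i : ℕ} (h : ¬ i < N) : π N (g i) = 1 := by
  rw [π, g]
  have h2 : Finsupp.filterAddHom (M := ZMod 2) (fun i => i < N) (Finsupp.single i 1) =
      0 := Finsupp.filter_single_of_neg _ h
  simp [AddMonoidAlgebra.mapDomain_single, h2]
  rfl

theorem π_p {N n : ℕ} (h : n ≤ N) : π N (p n) = p n := by
  rw [p, map_prod]
  apply Finset.prod_congr rfl
  intro i hi
  rw [map_add, map_one, π_g_lt (lt_of_lt_of_le (Finset.mem_range.1 hi) h)]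

theorem π_p_succ (N : ℕ) : π N (p (N + 1)) = 0 := by
  rw [p, Finset.prod_range_succ, map_mul, map_add, map_one, π_g_ge (lt_irrefl N), two_eq, mul_zero]

theorem exists_π (y : R) : ∃ N₀, ∀ N, N₀ ≤ N → π N y = y := by
  classical
  induction y using AddMonoidAlgebra.induction_on with
  | of a =>
    refine ⟨a.support.sup id + 1, fun N hN => ?_⟩
    have h2 : Finsupp.filterAddHom (M := ZMod 2) (fun i => i < N) a = a := by
      apply (Finsupp.filter_eq_self_iff _ _).2
      intro x hx
      have h3 : x ≤ a.support.sup id := Finset.le_sup (f := id) (Finsupp.mem_support_iff.2 hx)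
      omega
    rw [π]
    simp [AddMonoidAlgebra.mapDomain_single, h2]
  | add x y hx hy =>
    obtain ⟨N1, h1⟩ := hx
    obtain ⟨N2, h2⟩ := hy
    refine ⟨max N1 N2, fun N hN => ?_⟩
    rw [map_add, h1 N (le_trans (le_max_left _ _) hN), h2 N (le_trans (le_max_right _ _) hN)]
  | smul r x hx =>
    obtain ⟨N1, h1⟩ := hx
    refine ⟨N1, fun N hN => ?_⟩
    have hr : r = 0 ∨ r = 1 := by
      revert r; decide
    rcases hr with rfl | rfl
    · rw [zero_smul, map_zero]
    · rw [one_smul, h1 N hN]

theorem unsolvable (y : ℕ → R) (hy : ∀ k, y k = 1 + (1 + g k) * y (k + 1)) : False := by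
  have key : ∀ n, y 0 = (∑ k ∈ Finset.range n, p k) + p n * y n := by
    intro n
    induction n with
    | zero => simp [p]
    | succ n ih =>
      rw [ih, Finset.sum_range_succ, hy n]
      have : p (n + 1) = p n * (1 + g n) := by rw [p, Finset.prod_range_succ]; rfl
      rw [this]
      ring
  obtain ⟨N₀, hN₀⟩ := exists_π (y 0)
  have key2 : ∀ N, N₀ ≤ N → y 0 = ∑ k ∈ Finset.range (N + 1), p k := by
    intro N hN
    rw [← hN₀ N hN]
    conv_lhs => rw [key (N + 1)]
    rw [map_add, map_mul, π_p_succ, zero_mul, add_zero, map_sum]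
    apply Finset.sum_congr rfl
    intro k hk
    exact π_p (Nat.lt_succ_iff.1 (Finset.mem_range.1 hk))
  have a1 := key2 N₀ le_rfl
  have a2 := key2 (N₀ + 1) (Nat.le_succ _)
  rw [Finset.sum_range_succ, ← a1] at a2
  have : p (N₀ + 1) = 0 := by
    have := a2.symm
    rwa [add_eq_left] at this
  exact p_ne_zero _ this

/-- The group: pairs `(v, u)` with `u * u = 1`, acting on the ring as `r ↦ u * r + v`. -/
@[ext] structure K where
  v : R
  u : R
  hu : u * u = 1

namespace K

instance : Mul K := ⟨fun a b => ⟨a.v + a.u * b.v, a.u * b.u, by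
  rw [mul_mul_mul_comm, a.hu, b.hu, mul_one]⟩⟩

instance : One K := ⟨⟨0, 1, mul_one 1⟩⟩

instance : Inv K := ⟨fun a => ⟨a.u * a.v, a.u, a.hu⟩⟩

theorem mul_v (a b : K) : (a * b).v = a.v + a.u * b.v := rfl
theorem mul_u (a b : K) : (a * b).u = a.u * b.u := rfl
theorem one_v : (1 : K).v = 0 := rfl
theorem one_u : (1 : K).u = 1 := rfl
theorem inv_v (a : K) : (a⁻¹).v = a.u * a.v := rfl
theorem inv_u (a : K) : (a⁻¹).u = a.u := rfl

instance : Group K := Group.ofLeftAxioms
  (by
    intro a b c
    apply K.ext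
    · simp only [mul_v, mul_u]; ring
    · simp only [mul_u]; ring)
  (by
    intro a
    apply K.ext
    · simp only [mul_v, one_v, one_u]; ring
    · simp only [mul_u, one_u]; ring)
  (by
    intro a
    apply K.ext
    · simp only [mul_v, inv_v, inv_u, one_v]; exact two_eq _
    · simp only [mul_u, inv_u, one_u]; exact a.hu)

theorem pow_four (a : K) : a ^ 4 = 1 := by
  have h2 : (a * a).u = 1 := a.hu
  have : a ^ 4 = (a * a) * (a * a) := by
    rw [pow_succ, pow_succ, pow_two, mul_assoc, mul_assoc]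
  rw [this]
  apply K.ext
  · rw [mul_v, h2, one_mul, two_eq]; rfl
  · rw [mul_u, h2, mul_one]; rfl

theorem comm_u (a b : K) : (⁅a, b⁆ : K).u = 1 := by
  rw [commutatorElement_def]
  simp only [mul_u, inv_u]
  calc a.u * b.u * a.u * b.u = (a.u * a.u) * (b.u * b.u) := by ring
    _ = 1 := by rw [a.hu, b.hu, mul_one]

theorem comm_comm (a b c d : K) : (⁅a, b⁆ * ⁅c, d⁆ : K) = ⁅c, d⁆ * ⁅a, b⁆ := by
  apply K.ext
  · rw [mul_v, mul_v, comm_u, comm_u, one_mul, one_mul, add_comm]
  · rw [mul_u, mul_u, comm_u, comm_u]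

/-- the element `r ↦ r + 1` -/
def b : K := ⟨1, 1, mul_one 1⟩

/-- the element `r ↦ g i * r` -/
def e (i : ℕ) : K := ⟨0, g i, g_mul_self i⟩

theorem step (i : ℕ) (h : K) : (b * ⁅e i, h⁆ : K).v = 1 + (1 + g i) * h.v := by
  rw [mul_v, commutatorElement_def]
  simp only [mul_v, mul_u, inv_v, inv_u]
  show (1 : R) + 1 * (0 + g i * h.v + g i * h.u * (g i * 0) + g i * h.u * g i * (h.u * h.v)) =
    1 + (1 + g i) * h.v
  have : g i * h.u * g i * (h.u * h.v) = h.v := by
    calc g i * h.u * g i * (h.u * h.v) = (g i * g i) * (h.u * h.u) * h.v := by ring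
      _ = h.v := by rw [g_mul_self, h.hu, one_mul, one_mul]
  rw [this]
  ring

theorem not_system : ¬ ∃ h : ℕ → K, ∀ k, h k = b * ⁅e k, h (k + 1)⁆ := by
  rintro ⟨h, hh⟩
  apply unsolvable (fun k => (h k).v)
  intro k
  show (h k).v = 1 + (1 + g k) * (h (k + 1)).v
  conv_lhs => rw [hh k]
  exact step k (h (k + 1))

theorem not_isUi : ¬ IsUi.{u} K := fun hui => not_system (hui.solve b e)

theorem not_image {G : ℕ → Type u} [∀ i, Group (G i)] (ψ : (∀ i, G i) →* K)
    (h1 : ∀ x : ∀ i, G i, {i | x i ≠ 1}.Finite → ψ x = 1) : ¬ Function.Surjective ψ :=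
  fun hψ => not_system (UI.solve ψ hψ h1 b e)

theorem countable : Countable K := by
  have h1 : Countable E := inferInstance
  have h2 : Countable R := by
    have : Function.Injective (fun x : R => x.coeff) := fun x y hxy => AddMonoidAlgebra.ext hxy
    have h3 : Countable (E →₀ ZMod 2) := inferInstance
    exact this.countable
  have : Function.Injective (fun a : K => (a.v, a.u)) := by
    intro a b hab
    exact K.ext (congrArg Prod.fst hab) (congrArg Prod.snd hab)
  exact this.countable

end K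

end

end Pool.Agent.R630.UI
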